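import Mathlib

/-!
# SparseStack matrices and oblivious subspace injections: definitions
-/

set_option autoImplicit false

open Matrix

namespace Pool.Agent.R973.OSI

/-- An outcome of the randomness: for every row `i` and every block `j` the sign of the nonzero
entry and its position inside the block. -/
abbrev Outcome (n b ζ : ℕ) : Type := Fin n → Fin ζ → Bool × Fin b

/-- Probability of an event when all signs and all positions are independent and uniform, that is,
the uniform law on the finite product of all signs and positions. -/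
noncomputable def prob {n b ζ : ℕ} (A : Set (Outcome n b ζ)) : ℝ :=
  (Nat.card A : ℝ) / (Nat.card (Outcome n b ζ) : ℝ)

/-- The SparseStack matrix with `k = b * ζ` columns; the columns are indexed by the pairs
(block, position in the block). Row `i` has in block `j` exactly one nonzero entry,
equal to plus or minus `1 / sqrt ζ`. -/
noncomputable def sparseStack {n b ζ : ℕ} (ω : Outcome n b ζ) :
    Matrix (Fin n) (Fin ζ × Fin b) ℝ :=
  fun i c => if (ω i c.1).2 = c.2 then (if (ω i c.1).1 then (1 : ℝ) else -1) / Real.sqrt ζ else 0

/-- Injectivity with parameter `α` on `V`: `α ‖x‖² ≤ ‖Ωᵀ x‖²` for all `x ∈ V`, Euclidean norms. -/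
def Injects {n b ζ : ℕ} (ω : Outcome n b ζ) (V : Submodule ℝ (Fin n → ℝ)) (α : ℝ) : Prop :=
  ∀ x ∈ V, α * ∑ i, x i ^ 2 ≤ ∑ c, ((sparseStack ω)ᵀ.mulVec x) c ^ 2

/-- The SparseStack is an oblivious subspace injection for dimension `r` with parameter `α` and
failure probability `0.01`: for every `r`-dimensional subspace `V` of `ℝ^n`, with probability at
least `99/100`, `α ‖x‖² ≤ ‖Ωᵀ x‖²` for all `x ∈ V`. (Isotropy holds for every SparseStack.) -/
def IsOSI (n b ζ r : ℕ) (α : ℝ) : Prop :=
  ∀ V : Submodule ℝ (Fin n → ℝ), Module.finrank ℝ V = r →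
    (99 / 100 : ℝ) ≤ prob {ω : Outcome n b ζ | Injects ω V α}

end Pool.Agent.R973.OSI
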