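import Pool.Agent.R973.OSI.Defs
import Pool.Agent.R973.Occ

/-!
# SparseStack matrices and oblivious subspace injections: proofs
-/

set_option autoImplicit false

open Matrix Finset Pool.Agent.R973

namespace Pool.Agent.R973.OSI

/-- Sanity check: the total probability is one. -/
theorem prob_univ {n b ζ : ℕ} (hb : 1 ≤ b) : prob (Set.univ : Set (Outcome n b ζ)) = 1 := by
  have : Nonempty (Fin b) := ⟨⟨0, hb⟩⟩
  have : (Nat.card (Outcome n b ζ) : ℝ) ≠ 0 := by
    have := Nat.card_pos (α := Outcome n b ζ)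
    positivity
  unfold prob
  rw [Nat.card_congr (Equiv.Set.univ _)]
  exact div_self this

lemma prob_eq {n b ζ : ℕ} (A : Outcome n b ζ → Prop) :
    prob {ω | A ω} = av (fun ω => ind (A ω)) := by
  classical
  unfold prob av
  rw [sum_ind, Nat.card_eq_fintype_card, Nat.card_eq_fintype_card, Fintype.card_subtype]
  rfl

/-! ### the signs -/

/-- the sign as a real number -/
noncomputable def sg (e : Bool) : ℝ := if e then 1 else -1

lemma sg_sq (e : Bool) : sg e * sg e = 1 := by cases e <;> simp [sg]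
lemma sg_not (e : Bool) : sg (!e) = - sg e := by cases e <;> simp [sg]
lemma sg_abs (e : Bool) : |sg e| = 1 := by cases e <;> simp [sg]

lemma av_flip {I : Type*} [Fintype I] [DecidableEq I] (k : I) (F : (I → Bool) → ℝ)
    (hF : ∀ ε, F (Function.update ε k (!ε k)) = - F ε) : av F = 0 := by
  have hinv : Function.Involutive (fun ε : I → Bool => Function.update ε k (!ε k)) := by
    intro ε
    simp
  have h1 := av_equiv (hinv.toPerm : (I → Bool) ≃ (I → Bool)) F
  have h2 : (fun ε : I → Bool => F ((hinv.toPerm : (I → Bool) ≃ (I → Bool)) ε)) =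
      fun ε : I → Bool => (-1 : ℝ) * F ε := by
    funext ε
    have : (hinv.toPerm : (I → Bool) ≃ (I → Bool)) ε = Function.update ε k (!ε k) := rfl
    rw [this, hF]; ring
  rw [h2, av_smul] at h1
  linarith

section signs

variable {n b ζ L : ℕ} (s : Fin n × Fin ζ → Fin b) (i0 : Fin n) (g : Fin ζ × Fin L → Fin n)

/-- the test vector -/
noncomputable def xv (ε : Fin n × Fin ζ → Bool) : Fin n → ℝ :=
  Pi.single i0 1 - ∑ p : Fin ζ × Fin L,
    Pi.single (g p) ((1 / (L : ℝ)) * (sg (ε (i0, p.1)) * sg (ε (g p, p.1))))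

/-- the outcome with positions `s` and signs `ε` -/
def mk (ε : Fin n × Fin ζ → Bool) : Outcome n b ζ := fun i j => (ε (i, j), s (i, j))

lemma entry (ε : Fin n × Fin ζ → Bool) (c : Fin ζ × Fin b) :
    ((sparseStack (mk s ε))ᵀ.mulVec (xv i0 g ε)) c =
      (1 / Real.sqrt ζ) * (ind (s (i0, c.1) = c.2) * sg (ε (i0, c.1)) -
        ∑ p : Fin ζ × Fin L, (1 / (L : ℝ)) * (sg (ε (i0, p.1)) * sg (ε (g p, p.1)) *
          sg (ε (g p, c.1))) * ind (s (g p, c.1) = c.2)) := by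
  have hS : ∀ i : Fin n, (sparseStack (mk s ε))ᵀ c i =
      (1 / Real.sqrt ζ) * (ind (s (i, c.1) = c.2) * sg (ε (i, c.1))) := by
    intro i
    have hm2 : (mk s ε i c.1).1 = ε (i, c.1) := rfl
    rw [Matrix.transpose_apply]
    by_cases h : s (i, c.1) = c.2
    · have h' : (mk s ε i c.1).2 = c.2 := h
      rw [ind_true h]
      unfold sparseStack sg
      rw [if_pos h', hm2]
      ring
    · have h' : ¬ (mk s ε i c.1).2 = c.2 := h
      rw [ind_false h]
      unfold sparseStack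
      rw [if_neg h']
      ring
  unfold xv
  rw [Matrix.mulVec_sub, Pi.sub_apply]
  have h1 : ∀ (i : Fin n) (a : ℝ), ((sparseStack (mk s ε))ᵀ.mulVec (Pi.single i a)) c =
      (1 / Real.sqrt ζ) * (ind (s (i, c.1) = c.2) * sg (ε (i, c.1))) * a := by
    intro i a
    rw [Matrix.mulVec, dotProduct_single, hS]
  rw [h1, Matrix.mulVec_sum, Finset.sum_apply]
  simp only [h1]
  rw [mul_sub, mul_one, Finset.mul_sum]
  congr 1
  refine Finset.sum_congr rfl fun p _ => ?_
  ring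

variable {s i0 g}

lemma entry2 (hL : 1 ≤ L) (hs : ∀ p, s (g p, p.1) = s (i0, p.1)) (ε : Fin n × Fin ζ → Bool)
    (c : Fin ζ × Fin b) :
    ((sparseStack (mk s ε))ᵀ.mulVec (xv i0 g ε)) c =
      ∑ p : Fin ζ × Fin L, (-(1 / Real.sqrt ζ) * (1 / (L : ℝ)) * ind (s (g p, c.1) = c.2)) *
        (ind (p.1 ≠ c.1) * (sg (ε (i0, p.1)) * sg (ε (g p, p.1)) * sg (ε (g p, c.1)))) := by
  have hL0 : (L : ℝ) ≠ 0 := by positivity
  rw [entry]
  have h1 : ind (s (i0, c.1) = c.2) * sg (ε (i0, c.1)) =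
      ∑ p : Fin ζ × Fin L, (1 / (L : ℝ)) * (sg (ε (i0, p.1)) * sg (ε (g p, p.1)) *
          sg (ε (g p, c.1))) * ind (s (g p, c.1) = c.2) * ind (p.1 = c.1) := by
    have h2 : ∀ p : Fin ζ × Fin L, (1 / (L : ℝ)) * (sg (ε (i0, p.1)) * sg (ε (g p, p.1)) *
          sg (ε (g p, c.1))) * ind (s (g p, c.1) = c.2) * ind (p.1 = c.1) =
        (1 / (L : ℝ)) * (ind (s (i0, c.1) = c.2) * sg (ε (i0, c.1))) * ind (p.1 = c.1) := by
      intro p
      by_cases h : p.1 = c.1
      · rw [← h, hs p, mul_assoc (sg _), sg_sq]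
        ring
      · rw [ind_false h]; ring
    rw [Finset.sum_congr rfl fun p _ => h2 p, ← Finset.mul_sum, Fintype.sum_prod_type]
    simp only [Finset.sum_const, Finset.card_univ, Fintype.card_fin, nsmul_eq_mul]
    rw [← Finset.mul_sum, sum_ind_eq]
    field_simp
  rw [h1, ← Finset.sum_sub_distrib, Finset.mul_sum]
  refine Finset.sum_congr rfl fun p _ => ?_
  have h4 : ind (p.1 ≠ c.1) = 1 - ind (p.1 = c.1) := ind_not _
  rw [h4]
  ring

lemma av_entry_sq (hL : 1 ≤ L) (hζ : 1 ≤ ζ) (hs : ∀ p, s (g p, p.1) = s (i0, p.1))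
    (hg : Function.Injective g) (hgi : ∀ p, g p ≠ i0) (c : Fin ζ × Fin b) :
    av (fun ε : Fin n × Fin ζ → Bool => ((sparseStack (mk s ε))ᵀ.mulVec (xv i0 g ε)) c ^ 2) ≤
      ∑ p : Fin ζ × Fin L, (1 / (ζ : ℝ)) * (1 / (L : ℝ)) ^ 2 * ind (s (g p, c.1) = c.2) := by
  have hζ0 : (0 : ℝ) < ζ := by positivity
  simp only [entry2 hL hs, sq (∑ p : Fin ζ × Fin L, _), Finset.sum_mul_sum]
  rw [av_sum]
  refine Finset.sum_le_sum fun p _ => ?_
  rw [av_sum, Finset.sum_eq_single p]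
  · -- diagonal
    have h1 : ∀ ε : Fin n × Fin ζ → Bool,
        (-(1 / Real.sqrt ζ) * (1 / (L : ℝ)) * ind (s (g p, c.1) = c.2)) *
          (ind (p.1 ≠ c.1) * (sg (ε (i0, p.1)) * sg (ε (g p, p.1)) * sg (ε (g p, c.1)))) *
        ((-(1 / Real.sqrt ζ) * (1 / (L : ℝ)) * ind (s (g p, c.1) = c.2)) *
          (ind (p.1 ≠ c.1) * (sg (ε (i0, p.1)) * sg (ε (g p, p.1)) * sg (ε (g p, c.1))))) =
        (1 / (ζ : ℝ)) * (1 / (L : ℝ)) ^ 2 * (ind (s (g p, c.1) = c.2) * ind (s (g p, c.1) = c.2)) *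
          (ind (p.1 ≠ c.1) * ind (p.1 ≠ c.1)) := by
      intro ε
      have h2 : (1 / Real.sqrt ζ) * (1 / Real.sqrt ζ) = 1 / (ζ : ℝ) := by
        rw [div_mul_div_comm, one_mul, Real.mul_self_sqrt hζ0.le]
      calc _ = ((1 / Real.sqrt ζ) * (1 / Real.sqrt ζ)) * (1 / (L : ℝ)) ^ 2 *
            (ind (s (g p, c.1) = c.2) * ind (s (g p, c.1) = c.2)) *
            (ind (p.1 ≠ c.1) * ind (p.1 ≠ c.1)) * (sg (ε (i0, p.1)) * sg (ε (i0, p.1))) *
            (sg (ε (g p, p.1)) * sg (ε (g p, p.1))) * (sg (ε (g p, c.1)) * sg (ε (g p, c.1))) := by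
            ring
        _ = _ := by rw [sg_sq, sg_sq, sg_sq, h2]; ring
    simp only [h1]
    rw [av_const]
    have h3 : ∀ q : Prop, ind q * ind q = ind q := by
      intro q
      by_cases hq : q
      · rw [ind_true hq]; ring
      · rw [ind_false hq]; ring
    rw [h3, h3]
    have h4 := ind_le_one (p.1 ≠ c.1)
    have h5 : 0 ≤ (1 / (ζ : ℝ)) * (1 / (L : ℝ)) ^ 2 * ind (s (g p, c.1) = c.2) :=
      mul_nonneg (by positivity) (ind_nonneg _)
    calc _ ≤ (1 / (ζ : ℝ)) * (1 / (L : ℝ)) ^ 2 * ind (s (g p, c.1) = c.2) * 1 :=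
          mul_le_mul_of_nonneg_left h4 h5
      _ = _ := mul_one _
  · -- off diagonal
    intro p' _ hp'
    by_cases h : p.1 = c.1
    · have h1 : ind (p.1 ≠ c.1) = 0 := ind_false (not_not.2 h)
      simp only [h1, zero_mul, mul_zero, av_const]
    · apply av_flip (g p, c.1)
      intro ε
      have hne : g p ≠ g p' := fun h' => hp' (hg h').symm
      have e1 : (i0, p.1) ≠ (g p, c.1) := fun h' => hgi p (congrArg Prod.fst h').symm
      have e2 : (g p, p.1) ≠ (g p, c.1) := fun h' => h (congrArg Prod.snd h')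
      have e3 : (i0, p'.1) ≠ (g p, c.1) := fun h' => hgi p (congrArg Prod.fst h').symm
      have e4 : (g p', p'.1) ≠ (g p, c.1) := fun h' => hne (congrArg Prod.fst h').symm
      have e5 : (g p', c.1) ≠ (g p, c.1) := fun h' => hne (congrArg Prod.fst h').symm
      rw [Function.update_of_ne e1, Function.update_of_ne e2, Function.update_of_ne e3,
        Function.update_of_ne e4, Function.update_of_ne e5, Function.update_self, sg_not]
      ring
  · intro h
    exact absurd (Finset.mem_univ _) h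

/-- For fixed positions with the special structure, at least half of the signs are bad. -/
lemma sign_half (hL : 1 ≤ L) (hζ : 1 ≤ ζ) (hs : ∀ p, s (g p, p.1) = s (i0, p.1))
    (hg : Function.Injective g) (hgi : ∀ p, g p ≠ i0) {α : ℝ} (hα : 0 < α)
    (hLα : 2 * (ζ : ℝ) ≤ α * L) (V : Submodule ℝ (Fin n → ℝ))
    (hV : ∀ i, i = i0 ∨ i ∈ Set.range g → ∀ a : ℝ, (Pi.single i a : Fin n → ℝ) ∈ V) :
    1 / 2 ≤ av (fun ε : Fin n × Fin ζ → Bool => ind (¬ Injects (mk s ε) V α)) := by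
  have hL0 : (0 : ℝ) < L := by positivity
  have hζ0 : (0 : ℝ) < ζ := by positivity
  have h1 : ∀ ε : Fin n × Fin ζ → Bool,
      1 - (1 / α) * ∑ c, ((sparseStack (mk s ε))ᵀ.mulVec (xv i0 g ε)) c ^ 2 ≤
        ind (¬ Injects (mk s ε) V α) := by
    intro ε
    by_cases h : Injects (mk s ε) V α
    · rw [ind_false (not_not.2 h)]
      have hx : xv i0 g ε ∈ V := by
        unfold xv
        refine V.sub_mem (hV i0 (Or.inl rfl) 1) (V.sum_mem fun p _ => hV _ (Or.inr ⟨p, rfl⟩) _)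
      have h2 := h _ hx
      have h3 : (1 : ℝ) ≤ ∑ i, xv i0 g ε i ^ 2 := by
        have h4 : xv i0 g ε i0 = 1 := by
          unfold xv
          rw [Pi.sub_apply, Pi.single_eq_same, Finset.sum_apply, Finset.sum_eq_zero, sub_zero]
          intro p _
          rw [Pi.single_eq_of_ne (hgi p).symm]
        calc (1 : ℝ) = xv i0 g ε i0 ^ 2 := by rw [h4]; norm_num
          _ ≤ _ := Finset.single_le_sum (f := fun i => xv i0 g ε i ^ 2)
            (fun i _ => sq_nonneg _) (Finset.mem_univ i0)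
      have h5 : α ≤ ∑ c, ((sparseStack (mk s ε))ᵀ.mulVec (xv i0 g ε)) c ^ 2 := by nlinarith
      have h6 : 1 ≤ (1 / α) * ∑ c, ((sparseStack (mk s ε))ᵀ.mulVec (xv i0 g ε)) c ^ 2 := by
        rw [one_div, ← div_eq_inv_mul, le_div_iff₀ hα]
        linarith
      linarith
    · rw [ind_true h]
      have : 0 ≤ (1 / α) * ∑ c, ((sparseStack (mk s ε))ᵀ.mulVec (xv i0 g ε)) c ^ 2 :=
        mul_nonneg (by positivity) (Finset.sum_nonneg fun _ _ => sq_nonneg _)
      linarith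
  refine le_trans ?_ (av_mono h1)
  rw [av_sub, av_const, av_smul, av_sum]
  have h2 : ∑ c : Fin ζ × Fin b,
      av (fun ε : Fin n × Fin ζ → Bool => ((sparseStack (mk s ε))ᵀ.mulVec (xv i0 g ε)) c ^ 2) ≤
      (ζ : ℝ) / L := by
    refine (Finset.sum_le_sum fun c _ => av_entry_sq hL hζ hs hg hgi c).trans (le_of_eq ?_)
    rw [Fintype.sum_prod_type]
    have h3 : ∀ j : Fin ζ, ∑ t : Fin b, ∑ p : Fin ζ × Fin L,
        (1 / (ζ : ℝ)) * (1 / (L : ℝ)) ^ 2 * ind (s (g p, j) = t) = 1 / (L : ℝ) := by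
      intro j
      rw [Finset.sum_comm]
      have h4 : ∀ p : Fin ζ × Fin L, ∑ t : Fin b,
          (1 / (ζ : ℝ)) * (1 / (L : ℝ)) ^ 2 * ind (s (g p, j) = t) =
          (1 / (ζ : ℝ)) * (1 / (L : ℝ)) ^ 2 := by
        intro p
        rw [← Finset.mul_sum, sum_ind_eq', mul_one]
      rw [Finset.sum_congr rfl fun p _ => h4 p, Finset.sum_const, Finset.card_univ,
        Fintype.card_prod, Fintype.card_fin, Fintype.card_fin, nsmul_eq_mul]
      push_cast
      field_simp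
    have h6 : ∀ j : Fin ζ, ∑ y : Fin b, ∑ p : Fin ζ × Fin L,
        1 / (ζ : ℝ) * (1 / (L : ℝ)) ^ 2 * ind (s (g p, (j, y).1) = (j, y).2) = 1 / (L : ℝ) := h3
    rw [Finset.sum_congr rfl fun j _ => h6 j, Finset.sum_const, Finset.card_univ, Fintype.card_fin,
      nsmul_eq_mul]
    ring
  have h3 : (1 / α) * ((ζ : ℝ) / L) ≤ 1 / 2 := by
    rw [div_mul_div_comm, one_mul, div_le_div_iff₀ (by positivity) (by norm_num)]
    linarith
  have h4 := mul_le_mul_of_nonneg_left h2 (show 0 ≤ 1 / α by positivity)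
  linarith

end signs

/-! ### the positions -/

/-- the total outcome as positions and signs -/
def split (n b ζ : ℕ) : Outcome n b ζ ≃ (Fin n × Fin ζ → Fin b) × (Fin n × Fin ζ → Bool) where
  toFun ω := (fun p => (ω p.1 p.2).2, fun p => (ω p.1 p.2).1)
  invFun q := mk q.1 q.2
  left_inv _ := rfl
  right_inv _ := rfl

/-- the set of coordinates used -/
abbrev Jx (ζ L Q : ℕ) : Type := (Fin Q × Fin ζ) ⊕ (Fin ζ × (Fin L × Fin Q))

/-- Probability that no leader has heavy bins in all blocks. -/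
lemma no_good {n b ζ L Q : ℕ} (hb : 1 ≤ b) {c : ℝ} (hc : 0 < c)
    (hcl : c ≤ (1 - (1 - 1 / (b : ℝ)) ^ Q) ^ L)
    (φ : Fin Q ⊕ (Fin ζ × (Fin L × Fin Q)) → Fin n) (hφ : Function.Injective φ) :
    av (fun s : Fin n × Fin ζ → Fin b => ind (∀ i : Fin Q, ∃ j : Fin ζ,
      s (φ (Sum.inl i), j) ∉ heavy (fun mq => s (φ (Sum.inr (j, mq)), j)))) ≤
      ζ * (4 * (L * Q) / (b * c) ^ 2) + (1 - (c / 2) ^ ζ) ^ Q := by
  have : Nonempty (Fin b) := ⟨⟨0, hb⟩⟩
  have hb0 : (0 : ℝ) < b := by positivity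
  have hbx : 1 / (b : ℝ) ≤ 1 := by
    rw [div_le_one hb0]
    exact_mod_cast hb
  have hc1 : c ≤ 1 := by
    refine hcl.trans (pow_le_one₀ ?_ ?_)
    · have : (1 - 1 / (b : ℝ)) ^ Q ≤ 1 := pow_le_one₀ (by linarith) (by
        have : 0 < 1 / (b : ℝ) := by positivity
        linarith)
      linarith
    · have : 0 ≤ (1 - 1 / (b : ℝ)) ^ Q := pow_nonneg (by linarith) _
      linarith
  let e : Jx ζ L Q → Fin n × Fin ζ := Sum.elim (fun p => (φ (Sum.inl p.1), p.2))
    (fun p => (φ (Sum.inr p), p.1))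
  have he : Function.Injective e := by
    rintro (⟨i, j⟩ | ⟨j, mq⟩) (⟨i', j'⟩ | ⟨j', mq'⟩) h
    · have h1 := congrArg Prod.fst h
      have h2 := congrArg Prod.snd h
      have h3 : i = i' := Sum.inl_injective (hφ h1)
      have h4 : j = j' := h2
      rw [h3, h4]
    · have h1 := hφ (congrArg Prod.fst h)
      exact absurd h1 (by simp)
    · have h1 := hφ (congrArg Prod.fst h)
      exact absurd h1 (by simp)
    · have h1 := hφ (congrArg Prod.fst h)
      exact congrArg Sum.inr (Sum.inr_injective h1)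
  have h1 := av_comp_inj e he (fun y : Jx ζ L Q → Fin b => ind (∀ i : Fin Q, ∃ j : Fin ζ,
      y (Sum.inl (i, j)) ∉ heavy (fun mq => y (Sum.inr (j, mq)))))
  have h2 := av_equiv (Equiv.sumArrowEquivProdArrow (Fin Q × Fin ζ) (Fin ζ × (Fin L × Fin Q))
    (Fin b)).symm (fun y : Jx ζ L Q → Fin b => ind (∀ i : Fin Q, ∃ j : Fin ζ,
      y (Sum.inl (i, j)) ∉ heavy (fun mq => y (Sum.inr (j, mq)))))
  have h3 : av (fun s : Fin n × Fin ζ → Fin b => ind (∀ i : Fin Q, ∃ j : Fin ζ,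
      s (φ (Sum.inl i), j) ∉ heavy (fun mq => s (φ (Sum.inr (j, mq)), j)))) =
      av (fun q : (Fin Q × Fin ζ → Fin b) × (Fin ζ × (Fin L × Fin Q) → Fin b) =>
        ind (∀ i : Fin Q, ∃ j : Fin ζ, q.1 (i, j) ∉ heavy (fun mq => q.2 (j, mq)))) := by
    rw [← h2] at h1
    exact h1
  have h4 := av_equiv (Equiv.prodComm (Fin ζ × (Fin L × Fin Q) → Fin b) (Fin Q × Fin ζ → Fin b))
    (fun q : (Fin Q × Fin ζ → Fin b) × (Fin ζ × (Fin L × Fin Q) → Fin b) =>
        ind (∀ i : Fin Q, ∃ j : Fin ζ, q.1 (i, j) ∉ heavy (fun mq => q.2 (j, mq))))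
  rw [h3, ← h4, av_prod]
  have h5 : ∀ w : Fin ζ × (Fin L × Fin Q) → Fin b,
      av (fun u : Fin Q × Fin ζ → Fin b =>
        ind (∀ i : Fin Q, ∃ j : Fin ζ, u (i, j) ∉ heavy (fun mq => w (j, mq)))) ≤
      ∑ j : Fin ζ, ind (((heavy (fun mq => w (j, mq))).card : ℝ) < b * c / 2) +
        (1 - (c / 2) ^ ζ) ^ Q := by
    intro w
    rw [av_leaders hb (fun j => heavy (fun mq => w (j, mq)))]
    have h6 : ∀ j : Fin ζ, 0 ≤ ((heavy (fun mq => w (j, mq))).card : ℝ) / b := fun j => by positivity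
    have h7 : ∀ j : Fin ζ, ((heavy (fun mq => w (j, mq))).card : ℝ) / b ≤ 1 := fun j => by
      rw [div_le_one hb0]
      have := Finset.card_le_univ (heavy (fun mq => w (j, mq)))
      rw [Fintype.card_fin] at this
      exact_mod_cast this
    have h8 : ∏ j : Fin ζ, ((heavy (fun mq => w (j, mq))).card : ℝ) / b ≤ 1 :=
      Finset.prod_le_one (fun j _ => h6 j) fun j _ => h7 j
    have h9 : 0 ≤ ∏ j : Fin ζ, ((heavy (fun mq => w (j, mq))).card : ℝ) / b :=
      Finset.prod_nonneg fun j _ => h6 j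
    by_cases h : ∃ j : Fin ζ, ((heavy (fun mq => w (j, mq))).card : ℝ) < b * c / 2
    · obtain ⟨j, hj⟩ := h
      have h10 : (1 : ℝ) ≤ ∑ j : Fin ζ, ind (((heavy (fun mq => w (j, mq))).card : ℝ) < b * c / 2) := by
        rw [← ind_true hj]
        exact Finset.single_le_sum
          (f := fun j : Fin ζ => ind (((heavy (fun mq => w (j, mq))).card : ℝ) < b * c / 2))
          (fun i _ => ind_nonneg _) (Finset.mem_univ j)
      have h11 : (1 - ∏ j : Fin ζ, ((heavy (fun mq => w (j, mq))).card : ℝ) / b) ^ Q ≤ 1 :=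
        pow_le_one₀ (by linarith) (by linarith)
      have h12 : 0 ≤ (1 - (c / 2) ^ ζ) ^ Q := by
        apply pow_nonneg
        have : (c / 2) ^ ζ ≤ 1 := pow_le_one₀ (by positivity) (by linarith)
        linarith
      linarith
    · push Not at h
      have h10 : 0 ≤ ∑ j : Fin ζ, ind (((heavy (fun mq => w (j, mq))).card : ℝ) < b * c / 2) :=
        Finset.sum_nonneg fun j _ => ind_nonneg _
      have h11 : (c / 2) ^ ζ ≤ ∏ j : Fin ζ, ((heavy (fun mq => w (j, mq))).card : ℝ) / b := by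
        have : (c / 2) ^ ζ = ∏ _j : Fin ζ, (c / 2) := by
          rw [Finset.prod_const, Finset.card_univ, Fintype.card_fin]
        rw [this]
        refine Finset.prod_le_prod (fun j _ => by positivity) fun j _ => ?_
        rw [le_div_iff₀ hb0]
        have := h j
        linarith
      have h12 : (1 - ∏ j : Fin ζ, ((heavy (fun mq => w (j, mq))).card : ℝ) / b) ^ Q ≤
          (1 - (c / 2) ^ ζ) ^ Q := pow_le_pow_left₀ (by linarith) (by linarith) _
      linarith
  refine (av_mono h5).trans ?_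
  rw [av_add, av_const, av_sum]
  have h6 : ∀ j : Fin ζ, av (fun w : Fin ζ × (Fin L × Fin Q) → Fin b =>
      ind (((heavy (fun mq => w (j, mq))).card : ℝ) < b * c / 2)) ≤
      4 * (L * Q) / (b * c) ^ 2 := by
    intro j
    have h7 := av_comp_inj (Z := Fin b) (fun mq : Fin L × Fin Q => (j, mq))
      (fun x y h => congrArg Prod.snd h)
      (fun w => ind (((heavy w).card : ℝ) < b * c / 2))
    rw [h7]
    exact heavy_cheb hb hc hcl
  have h7 := Finset.sum_le_sum fun (j : Fin ζ) (_ : j ∈ Finset.univ) => h6 j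
  rw [Finset.sum_const, Finset.card_univ, Fintype.card_fin, nsmul_eq_mul] at h7
  linarith

/-- the subspace of vectors supported on the first `r` coordinates -/
def coordSub (n r : ℕ) : Submodule ℝ (Fin n → ℝ) where
  carrier := {x | ∀ i : Fin n, r ≤ (i : ℕ) → x i = 0}
  add_mem' := by
    intro x y hx hy i hi
    rw [Pi.add_apply, hx i hi, hy i hi, add_zero]
  zero_mem' := fun _ _ => rfl
  smul_mem' := by
    intro c x hx i hi
    rw [Pi.smul_apply, hx i hi, smul_zero]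

/-- the coordinate subspace as `ℝ^r` -/
noncomputable def coordEquiv {n r : ℕ} (h : r ≤ n) : coordSub n r ≃ₗ[ℝ] (Fin r → ℝ) where
  toFun x := fun i => x.1 (Fin.castLE h i)
  map_add' _ _ := rfl
  map_smul' _ _ := rfl
  invFun y := ⟨fun i => if hi : (i : ℕ) < r then y ⟨i, hi⟩ else 0, fun _ hi =>
    dif_neg (not_lt.2 hi)⟩
  left_inv x := by
    apply Subtype.ext
    funext i
    by_cases hi : (i : ℕ) < r
    · simp only [dif_pos hi]
      rfl
    · simp only [dif_neg hi]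
      exact (x.2 i (not_lt.1 hi)).symm
  right_inv y := by
    funext i
    simp

lemma finrank_coordSub {n r : ℕ} (h : r ≤ n) : Module.finrank ℝ (coordSub n r) = r := by
  rw [LinearEquiv.finrank_eq (coordEquiv h)]
  simp

/-- fewer than `r` columns: injectivity is impossible -/
lemma few_columns {n b ζ r : ℕ} (h : r ≤ n) (hk : b * ζ < r) {α : ℝ} (hα : 0 < α)
    (ω : Outcome n b ζ) : ¬ Injects ω (coordSub n r) α := by
  intro hI
  let T : coordSub n r →ₗ[ℝ] (Fin ζ × Fin b → ℝ) :=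
    (Matrix.mulVecLin (sparseStack ω)ᵀ).comp (coordSub n r).subtype
  have h1 : Module.finrank ℝ (Fin ζ × Fin b → ℝ) < Module.finrank ℝ (coordSub n r) := by
    rw [finrank_coordSub h, Module.finrank_fintype_fun_eq_card, Fintype.card_prod,
      Fintype.card_fin, Fintype.card_fin, mul_comm]
    exact hk
  have h2 := LinearMap.ker_ne_bot_of_finrank_lt (f := T) h1
  obtain ⟨x, hx, hx0⟩ := (Submodule.ne_bot_iff _).1 h2
  have h3 : (sparseStack ω)ᵀ.mulVec x.1 = 0 := hx
  have h4 := hI x.1 x.2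
  rw [h3] at h4
  simp only [Pi.zero_apply, ne_eq, OfNat.ofNat_ne_zero, not_false_eq_true, zero_pow,
    Finset.sum_const_zero] at h4
  have h5 : ∑ i, x.1 i ^ 2 ≤ 0 := by
    by_contra hc
    push Not at hc
    have := mul_pos hα hc
    linarith
  have h6 : ∑ i, x.1 i ^ 2 = 0 := le_antisymm h5 (Finset.sum_nonneg fun _ _ => sq_nonneg _)
  rw [Finset.sum_eq_zero_iff_of_nonneg fun _ _ => sq_nonneg _] at h6
  apply hx0
  apply Subtype.ext
  funext i
  have := h6 i (Finset.mem_univ i)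
  exact pow_eq_zero_iff (two_ne_zero) |>.1 this

/-- The failure probability is at least `1/4`, provided that the probability of `no good leader`
is at most `1/2`. -/
lemma fail_quarter {n b ζ L Q r : ℕ} (hb : 1 ≤ b) (hζ : 1 ≤ ζ) (hL : 1 ≤ L) (hrn : r ≤ n)
    (hQ : Q * (1 + ζ * L) ≤ r) {c : ℝ} (hc : 0 < c)
    (hcl : c ≤ (1 - (1 - 1 / (b : ℝ)) ^ Q) ^ L)
    (hhalf : ζ * (4 * (L * Q) / (b * c) ^ 2) + (1 - (c / 2) ^ ζ) ^ Q ≤ 1 / 2)
    {α : ℝ} (hα : 0 < α) (hLα : 2 * (ζ : ℝ) ≤ α * L) :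
    prob {ω : Outcome n b ζ | Injects ω (coordSub n r) α} ≤ 3 / 4 := by
  have : Nonempty (Fin b) := ⟨⟨0, hb⟩⟩
  rw [prob_eq]
  -- the injection
  have hcard : Fintype.card (Fin Q ⊕ (Fin ζ × (Fin L × Fin Q))) ≤ Fintype.card (Fin r) := by
    simp only [Fintype.card_sum, Fintype.card_prod, Fintype.card_fin]
    calc Q + ζ * (L * Q) = Q * (1 + ζ * L) := by ring
      _ ≤ r := hQ
  obtain ⟨φ0⟩ := Function.Embedding.nonempty_of_card_le hcard
  set φ : Fin Q ⊕ (Fin ζ × (Fin L × Fin Q)) → Fin n := fun x => Fin.castLE hrn (φ0 x) with hφdef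
  have hφ : Function.Injective φ := fun x y h => φ0.injective (Fin.castLE_injective hrn h)
  have hφr : ∀ x, ((φ x : Fin n) : ℕ) < r := fun x => (φ0 x).2
  have h1 := no_good (n := n) hb hc hcl φ hφ
  -- lower bound for the probability of failure
  have h2 : ∀ s : Fin n × Fin ζ → Fin b,
      (1 / 2) * (1 - ind (∀ i : Fin Q, ∃ j : Fin ζ,
        s (φ (Sum.inl i), j) ∉ heavy (fun mq => s (φ (Sum.inr (j, mq)), j)))) ≤
      av (fun ε : Fin n × Fin ζ → Bool => ind (¬ Injects (mk s ε) (coordSub n r) α)) := by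
    intro s
    by_cases h : ∀ i : Fin Q, ∃ j : Fin ζ,
        s (φ (Sum.inl i), j) ∉ heavy (fun mq => s (φ (Sum.inr (j, mq)), j))
    · rw [ind_true h]
      have : 0 ≤ av (fun ε : Fin n × Fin ζ → Bool => ind (¬ Injects (mk s ε) (coordSub n r) α)) :=
        av_nonneg fun _ => ind_nonneg _
      linarith
    · rw [ind_false h]
      push Not at h
      obtain ⟨i, hi⟩ := h
      simp only [mem_heavy] at hi
      choose q hq using hi
      have h3 := sign_half (s := s) (i0 := φ (Sum.inl i))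
        (g := fun p : Fin ζ × Fin L => φ (Sum.inr (p.1, (p.2, q p.1 p.2)))) hL hζ
        (fun p => hq p.1 p.2)
        (by
          rintro ⟨j, m⟩ ⟨j', m'⟩ h
          have h4 := Sum.inr_injective (hφ h)
          have h5 : j = j' := congrArg Prod.fst h4
          have h6 : m = m' := congrArg (fun z => z.2.1) h4
          rw [h5, h6])
        (by
          intro p h
          exact absurd (hφ h) (by simp))
        hα hLα (coordSub n r)
        (by
          intro k hk a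
          have hkr : (k : ℕ) < r := by
            rcases hk with rfl | ⟨p, rfl⟩
            · exact hφr _
            · exact hφr _
          intro l hl
          rw [Pi.single_eq_of_ne]
          rintro rfl
          omega)
      linarith
  have h3 := av_mono h2
  rw [av_smul, av_sub, av_const] at h3
  have h4 : av (fun ω : Outcome n b ζ => ind (Injects ω (coordSub n r) α)) =
      1 - av (fun s : Fin n × Fin ζ → Fin b =>
        av (fun ε : Fin n × Fin ζ → Bool => ind (¬ Injects (mk s ε) (coordSub n r) α))) := by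
    have h5 := av_equiv (split n b ζ).symm
      (fun ω : Outcome n b ζ => ind (¬ Injects ω (coordSub n r) α))
    rw [av_prod] at h5
    have h6 := av_ind_not (X := Outcome n b ζ) (fun ω => Injects ω (coordSub n r) α)
    rw [h6] at h5
    have h7 : (av fun x : Fin n × Fin ζ → Fin b => av fun y : Fin n × Fin ζ → Bool =>
        ind (¬ Injects ((split n b ζ).symm (x, y)) (coordSub n r) α)) =
        av (fun s : Fin n × Fin ζ → Fin b =>
        av (fun ε : Fin n × Fin ζ → Bool => ind (¬ Injects (mk s ε) (coordSub n r) α))) := rfl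
    rw [h7] at h5
    linarith
  rw [h4]
  linarith

lemma exp_neg_le_half {y : ℝ} (h0 : 0 ≤ y) (h1 : y ≤ 1) : Real.exp (-y) ≤ 1 - y / 2 := by
  rw [Real.exp_neg]
  have h2 := Real.add_one_le_exp y
  have h3 : (Real.exp y)⁻¹ ≤ (y + 1)⁻¹ := inv_anti₀ (by linarith) h2
  refine h3.trans ?_
  rw [inv_le_iff_one_le_mul₀ (by linarith)]
  nlinarith

lemma one_sub_pow_le {x : ℝ} (h1 : x ≤ 1) (Q : ℕ) : (1 - x) ^ Q ≤ Real.exp (-(Q * x)) := by
  have h2 : 1 - x ≤ Real.exp (-x) := by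
    have := Real.add_one_le_exp (-x)
    linarith
  calc (1 - x) ^ Q ≤ Real.exp (-x) ^ Q := pow_le_pow_left₀ (by linarith) h2 _
    _ = Real.exp (-(Q * x)) := by
        rw [← Real.exp_nat_mul]
        congr 1
        ring

/-- numerical core -/
lemma core {C : ℝ} (hC : 1 ≤ C) {n b ζ L r : ℕ} (hb : 1 ≤ b) (hζ : 1 ≤ ζ) (hL : 1 ≤ L)
    (hrn : r ≤ n) (hk1 : r ≤ b * ζ) (hk2 : ((b * ζ : ℕ) : ℝ) ≤ C * r)
    (hbig : 16 * (ζ : ℝ) ^ 2 * L * (16 * C * L) ^ (2 * L * ζ) ≤ r)
    {α : ℝ} (hα : 0 < α) (hLα : 2 * (ζ : ℝ) ≤ α * L) :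
    prob {ω : Outcome n b ζ | Injects ω (coordSub n r) α} ≤ 3 / 4 := by
  have hζ1 : (1 : ℝ) ≤ ζ := by exact_mod_cast hζ
  have hL1 : (1 : ℝ) ≤ L := by exact_mod_cast hL
  have hb1 : (1 : ℝ) ≤ b := by exact_mod_cast hb
  have hCL : (1 : ℝ) ≤ C * L := by nlinarith
  have h16 : (1 : ℝ) ≤ 16 * C * L := by nlinarith
  have h8 : (1 : ℝ) ≤ 8 * C * L := by nlinarith
  set D : ℝ := 16 * C * L with hD
  have hD1 : 1 ≤ D ^ (2 * L * ζ) := one_le_pow₀ h16
  have hζL : (1 : ℝ) ≤ ζ * L := by nlinarith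
  -- size of r
  have hr1 : 16 * ((ζ : ℝ) * L) ≤ r := by
    refine le_trans ?_ hbig
    have h1 : (ζ : ℝ) ≤ ζ ^ 2 := by nlinarith
    calc 16 * ((ζ : ℝ) * L) = 16 * (ζ : ℝ) * L * 1 := by ring
      _ ≤ 16 * (ζ : ℝ) ^ 2 * L * D ^ (2 * L * ζ) := by gcongr
  have hr0 : (0 : ℝ) < r := by nlinarith
  set Q : ℕ := r / (1 + ζ * L) with hQdef
  have hQ : Q * (1 + ζ * L) ≤ r := Nat.div_mul_le_self _ _
  have hQ1 : (Q : ℝ) * (1 + ζ * L) ≤ r := by exact_mod_cast hQ
  have hQ2 : (r : ℝ) < (Q + 1) * (1 + ζ * L) := by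
    have h1 : r < (Q + 1) * (1 + ζ * L) := by
      rw [mul_comm]
      exact Nat.lt_mul_div_succ r (by positivity)
    exact_mod_cast h1
  have hQ3 : (r : ℝ) / (4 * (ζ * L)) ≤ Q := by
    rw [div_le_iff₀ (by positivity)]
    nlinarith
  -- Q / b
  have hbr : (b : ℝ) * ζ ≤ C * r := by exact_mod_cast hk2
  have hrb : (r : ℝ) ≤ b * ζ := by exact_mod_cast hk1
  have hQb : 1 / (4 * (C * L)) ≤ Q * (1 / (b : ℝ)) := by
    rw [mul_one_div, div_le_div_iff₀ (by positivity) (by positivity), one_mul]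
    rw [div_le_iff₀ (by positivity)] at hQ3
    have h1 : (b : ℝ) * ζ ≤ C * (Q * (4 * (ζ * L))) :=
      hbr.trans (mul_le_mul_of_nonneg_left hQ3 (by linarith))
    have h2 : (b : ℝ) * ζ ≤ (Q * (4 * (C * L))) * ζ := by linarith
    exact le_of_mul_le_mul_right h2 (by linarith)
  set c : ℝ := (1 / (8 * C * L)) ^ L with hc
  have hc0 : 0 < c := by positivity
  have hcl : c ≤ (1 - (1 - 1 / (b : ℝ)) ^ Q) ^ L := by
    rw [hc]
    refine pow_le_pow_left₀ (by positivity) ?_ _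
    have h1 : (1 - 1 / (b : ℝ)) ^ Q ≤ Real.exp (-(Q * (1 / (b : ℝ)))) :=
      one_sub_pow_le (by rw [div_le_one (by linarith)]; exact hb1) Q
    have h2 : Real.exp (-(Q * (1 / (b : ℝ)))) ≤ Real.exp (-(1 / (4 * (C * L)))) :=
      Real.exp_le_exp.2 (by linarith)
    have h3 : Real.exp (-(1 / (4 * (C * L)))) ≤ 1 - (1 / (4 * (C * L))) / 2 :=
      exp_neg_le_half (by positivity) (by rw [div_le_one (by positivity)]; linarith)
    have h4 : (1 / (4 * (C * L))) / 2 = 1 / (8 * C * L) := by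
      field_simp
      norm_num
    linarith
  refine fail_quarter hb hζ hL hrn hQ hc0 hcl ?_ hα hLα
  have hcinv : c * (8 * C * L) ^ L = 1 := by
    rw [hc, ← mul_pow, one_div, inv_mul_cancel₀ (by positivity), one_pow]
  -- first term
  have ht1 : (ζ : ℝ) * (4 * (L * Q) / (b * c) ^ 2) ≤ 1 / 4 := by
    have h1 : (ζ : ℝ) * (4 * (L * Q) / (b * c) ^ 2) = 4 * (ζ * L * Q) / (b * c) ^ 2 := by ring
    rw [h1, div_le_div_iff₀ (by positivity) (by norm_num)]
    have h2 : (ζ : ℝ) * L * Q ≤ r := by nlinarith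
    -- 16 ζ^2 (8CL)^(2L) ≤ r
    have h3 : 16 * (ζ : ℝ) ^ 2 * ((8 * C * L) ^ L) ^ 2 ≤ r := by
      refine le_trans ?_ hbig
      have h4 : ((8 * C * L) ^ L) ^ 2 ≤ L * D ^ (2 * L * ζ) := by
        rw [← pow_mul]
        calc (8 * C * L) ^ (L * 2) ≤ D ^ (L * 2) :=
              pow_le_pow_left₀ (by positivity) (by rw [hD]; linarith) _
          _ ≤ D ^ (2 * L * ζ) := pow_le_pow_right₀ h16 (by
              calc L * 2 = 2 * L * 1 := by ring
                _ ≤ 2 * L * ζ := Nat.mul_le_mul_left _ hζ)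
          _ ≤ L * D ^ (2 * L * ζ) := le_mul_of_one_le_left (by positivity) hL1
      calc 16 * (ζ : ℝ) ^ 2 * ((8 * C * L) ^ L) ^ 2 ≤ 16 * (ζ : ℝ) ^ 2 * (L * D ^ (2 * L * ζ)) := by
            gcongr
        _ = _ := by ring
    -- 16 ζ^2 ≤ r c^2
    have h5 : 16 * (ζ : ℝ) ^ 2 ≤ r * c ^ 2 := by
      have h6 := mul_le_mul_of_nonneg_right h3 (show 0 ≤ c ^ 2 by positivity)
      calc 16 * (ζ : ℝ) ^ 2 = 16 * (ζ : ℝ) ^ 2 * (c * (8 * C * L) ^ L) ^ 2 := by rw [hcinv]; ring
        _ = 16 * (ζ : ℝ) ^ 2 * ((8 * C * L) ^ L) ^ 2 * c ^ 2 := by ring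
        _ ≤ _ := h6
    have h7 : (r : ℝ) ^ 2 * c ^ 2 ≤ (b * c) ^ 2 * ζ ^ 2 := by
      have h8' : (r : ℝ) ^ 2 ≤ (b * ζ) ^ 2 := pow_le_pow_left₀ hr0.le hrb 2
      calc (r : ℝ) ^ 2 * c ^ 2 ≤ (b * ζ) ^ 2 * c ^ 2 := by gcongr
        _ = _ := by ring
    have h9 : 16 * (r : ℝ) * ζ ^ 2 ≤ (b * c) ^ 2 * ζ ^ 2 := by
      calc 16 * (r : ℝ) * ζ ^ 2 = r * (16 * ζ ^ 2) := by ring
        _ ≤ r * (r * c ^ 2) := by gcongr
        _ = (r : ℝ) ^ 2 * c ^ 2 := by ring
        _ ≤ _ := h7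
    have h10 : 16 * (r : ℝ) ≤ (b * c) ^ 2 := le_of_mul_le_mul_right h9 (by positivity)
    linarith
  -- second term
  have ht2 : (1 - (c / 2) ^ ζ) ^ Q ≤ 1 / 4 := by
    have hc2 : (1 / D) ^ L ≤ c / 2 := by
      have h1 : (1 / D) ^ L = (1 / 2) ^ L * c := by
        rw [hc, ← mul_pow, hD]
        congr 1
        field_simp
        norm_num
      have h2 : ((1 : ℝ) / 2) ^ L ≤ 1 / 2 := by
        calc ((1 : ℝ) / 2) ^ L ≤ (1 / 2) ^ 1 := pow_le_pow_of_le_one (by norm_num) (by norm_num) hL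
          _ = 1 / 2 := by norm_num
      rw [h1]
      have h3 := mul_le_mul_of_nonneg_right h2 hc0.le
      linarith
    have hc3 : (1 / D) ^ (L * ζ) ≤ (c / 2) ^ ζ := by
      rw [pow_mul]
      exact pow_le_pow_left₀ (by positivity) hc2 _
    have hc1 : c ≤ 1 := by
      rw [hc]
      exact pow_le_one₀ (by positivity) (by rw [div_le_one (by positivity)]; exact h8)
    have h1 : (1 - (c / 2) ^ ζ) ^ Q ≤ Real.exp (-(Q * (c / 2) ^ ζ)) :=
      one_sub_pow_le (pow_le_one₀ (by positivity) (by linarith)) Q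
    have h2 : 2 ≤ (Q : ℝ) * (c / 2) ^ ζ := by
      have h3 : (r : ℝ) / (4 * (ζ * L)) * (1 / D) ^ (L * ζ) ≤ Q * (c / 2) ^ ζ := by
        gcongr
      refine le_trans ?_ h3
      rw [div_mul_eq_mul_div, le_div_iff₀ (by positivity)]
      have h4 : 16 * (ζ * L) * D ^ (L * ζ) ≤ r := by
        refine le_trans ?_ hbig
        have h5 : (ζ : ℝ) ≤ ζ ^ 2 := by nlinarith
        have h6 : D ^ (L * ζ) ≤ D ^ (2 * L * ζ) := pow_le_pow_right₀ h16 (by
          calc L * ζ ≤ 2 * (L * ζ) := Nat.le_mul_of_pos_left _ (by norm_num)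
            _ = 2 * L * ζ := by ring)
        calc 16 * (ζ * L) * D ^ (L * ζ) = 16 * (ζ : ℝ) * L * D ^ (L * ζ) := by ring
          _ ≤ 16 * (ζ : ℝ) ^ 2 * L * D ^ (2 * L * ζ) := by gcongr
      have h7 := mul_le_mul_of_nonneg_right h4 (show 0 ≤ (1 / D) ^ (L * ζ) by positivity)
      have h8' : D ^ (L * ζ) * (1 / D) ^ (L * ζ) = 1 := by
        rw [← mul_pow, mul_one_div, div_self (by positivity), one_pow]
      have h9 : 16 * (ζ * L) * D ^ (L * ζ) * (1 / D) ^ (L * ζ) = 16 * ((ζ : ℝ) * L) := by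
        rw [mul_assoc (16 * ((ζ : ℝ) * L)), h8', mul_one]
      rw [h9] at h7
      linarith
    have h3 : Real.exp (-(Q * (c / 2) ^ ζ)) ≤ Real.exp (-2) := Real.exp_le_exp.2 (by linarith)
    have h4 : Real.exp (-2) ≤ 1 / 4 := by
      rw [Real.exp_neg, one_div]
      apply inv_anti₀ (by norm_num)
      have h5 : Real.exp 2 = Real.exp 1 * Real.exp 1 := by rw [← Real.exp_add]; norm_num
      have h6 : (2 : ℝ) ≤ Real.exp 1 := by
        have := Real.exp_one_gt_d9
        linarith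
      rw [h5]
      have h7 := mul_le_mul h6 h6 (by norm_num) (by positivity)
      linarith
    linarith
  linarith

lemma IsOSI.mono {n b ζ r : ℕ} {α α' : ℝ} (h : α' ≤ α) (hO : IsOSI n b ζ r α) :
    IsOSI n b ζ r α' := by
  intro V hV
  refine (hO V hV).trans ?_
  rw [prob_eq, prob_eq]
  apply av_mono
  intro ω
  apply ind_mono
  intro hI x hx
  refine le_trans ?_ (hI x hx)
  exact mul_le_mul_of_nonneg_right h (Finset.sum_nonneg fun _ _ => sq_nonneg _)

/-- The lower bound for the sparsity. -/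
theorem sparsity_lower (C : ℝ) : ∃ c : ℝ, 0 < c ∧ ∀ (r n ζ b : ℕ) (α : ℝ), 0 < α → α ≤ 1 →
    1 ≤ r → r ≤ n → 1 ≤ ζ → 1 ≤ b → ((b * ζ : ℕ) : ℝ) ≤ C * r → IsOSI n b ζ r α →
    c * α * Real.log r < (ζ : ℝ) ^ 2 * Real.log (2 + ζ / α) := by
  set C' : ℝ := max C 1 with hC'
  have hC1 : 1 ≤ C' := le_max_right _ _
  set B : ℝ := Real.log (48 * C') + 1 with hB
  have hB1 : 1 ≤ B := by
    have : 0 ≤ Real.log (48 * C') := Real.log_nonneg (by linarith)
    linarith
  refine ⟨1 / (9 * B), by positivity, ?_⟩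
  intro r n ζ b α hα hα1 hr hrn hζ hb hk hO
  by_contra hcon
  push Not at hcon
  have hζ1 : (1 : ℝ) ≤ ζ := by exact_mod_cast hζ
  have hr0 : (0 : ℝ) < r := by exact_mod_cast hr
  -- choice of L
  set K : ℝ := ζ / α with hK
  have hK1 : 1 ≤ K := by rw [hK, le_div_iff₀ hα]; linarith
  have hKζ : (ζ : ℝ) ≤ K := by rw [hK, le_div_iff₀ hα]; nlinarith
  set L : ℕ := ⌈2 * K⌉₊ with hL
  have hL0 : 2 * K ≤ L := Nat.le_ceil _
  have hL1 : (L : ℝ) ≤ 3 * K := by
    have := Nat.ceil_lt_add_one (show 0 ≤ 2 * K by linarith)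
    linarith
  have hL2 : 1 ≤ L := by
    have : (1 : ℝ) ≤ L := by linarith
    exact_mod_cast this
  have hLα : 2 * (ζ : ℝ) ≤ α * L := by
    have h1 : α * (2 * K) ≤ α * L := mul_le_mul_of_nonneg_left hL0 hα.le
    have h2 : α * (2 * K) = 2 * ζ := by rw [hK]; field_simp
    linarith
  have hV := hO (coordSub n r) (finrank_coordSub hrn)
  rcases lt_or_ge (b * ζ) r with hlt | hge
  · -- few columns
    have h1 : {ω : Outcome n b ζ | Injects ω (coordSub n r) α} = ∅ := by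
      ext ω
      simp only [Set.mem_ofPred_eq, Set.mem_empty_iff_false, iff_false]
      exact few_columns hrn hlt hα ω
    rw [h1] at hV
    have h2 : prob (∅ : Set (Outcome n b ζ)) = 0 := by
      unfold prob
      simp
    rw [h2] at hV
    norm_num at hV
  · have hk' : ((b * ζ : ℕ) : ℝ) ≤ C' * r :=
      hk.trans (mul_le_mul_of_nonneg_right (le_max_left _ _) hr0.le)
    have hbig : 16 * (ζ : ℝ) ^ 2 * L * (16 * C' * L) ^ (2 * L * ζ) ≤ r := by
      have hLr : (1 : ℝ) ≤ L := by exact_mod_cast hL2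
      have hC0 : 0 < C' := by linarith
      have hpos : 0 < 16 * (ζ : ℝ) ^ 2 * L * (16 * C' * L) ^ (2 * L * ζ) := by positivity
      rw [← Real.log_le_log_iff hpos hr0, Real.log_mul (by positivity) (by positivity),
        Real.log_pow]
      set X : ℝ := Real.log (48 * C' * K) with hX
      have hX0 : 0 ≤ X := Real.log_nonneg (by nlinarith [mul_le_mul hC1 hK1 zero_le_one hC0.le])
      have h1 : Real.log (16 * (ζ : ℝ) ^ 2 * L) ≤ 3 * X := by
        have h2 : 16 * (ζ : ℝ) ^ 2 * L ≤ (48 * C' * K) ^ 3 := by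
          have h3 : (ζ : ℝ) ^ 2 ≤ K ^ 2 := pow_le_pow_left₀ (by linarith) hKζ 2
          have h4 : 1 ≤ C' ^ 3 := one_le_pow₀ hC1
          calc 16 * (ζ : ℝ) ^ 2 * L ≤ 16 * K ^ 2 * (3 * K) := by gcongr
            _ = 48 * K ^ 3 * 1 := by ring
            _ ≤ 48 ^ 3 * K ^ 3 * C' ^ 3 := by
                have : (0 : ℝ) ≤ K ^ 3 := by positivity
                gcongr
                norm_num
            _ = (48 * C' * K) ^ 3 := by ring
        calc Real.log (16 * (ζ : ℝ) ^ 2 * L) ≤ Real.log ((48 * C' * K) ^ 3) :=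
              Real.log_le_log (by positivity) h2
          _ = 3 * X := by rw [Real.log_pow]; norm_num [hX]
      have h2 : Real.log (16 * C' * L) ≤ X := by
        apply Real.log_le_log (by positivity)
        calc 16 * C' * L ≤ 16 * C' * (3 * K) := by gcongr
          _ = 48 * C' * K := by ring
      have h3 : ((2 * L * ζ : ℕ) : ℝ) ≤ 6 * (ζ ^ 2 / α) := by
        push_cast
        calc 2 * (L : ℝ) * ζ ≤ 2 * (3 * K) * ζ := by gcongr
          _ = 6 * (ζ ^ 2 / α) := by rw [hK]; ring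
      have h4 : 1 ≤ (ζ : ℝ) ^ 2 / α := by
        rw [le_div_iff₀ hα]
        nlinarith
      have h5 : ((2 * L * ζ : ℕ) : ℝ) * Real.log (16 * C' * L) ≤ 6 * (ζ ^ 2 / α) * X := by
        have h6 : 0 ≤ Real.log (16 * C' * L) := Real.log_nonneg (by nlinarith)
        calc ((2 * L * ζ : ℕ) : ℝ) * Real.log (16 * C' * L) ≤
              6 * (ζ ^ 2 / α) * Real.log (16 * C' * L) := by gcongr
          _ ≤ 6 * (ζ ^ 2 / α) * X := by gcongr
      have h6 : 3 * X ≤ 3 * (ζ ^ 2 / α) * X := by nlinarith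
      -- X ≤ B log (2 + K)
      have h7 : X ≤ B * Real.log (2 + K) := by
        have h8 : Real.log 3 ≤ Real.log (2 + K) := Real.log_le_log (by norm_num) (by linarith)
        have h9 : 1 ≤ Real.log 3 := by
          rw [Real.le_log_iff_exp_le (by norm_num)]
          have := Real.exp_one_lt_d9
          linarith
        have h10 : Real.log K ≤ Real.log (2 + K) := Real.log_le_log (by linarith) (by linarith)
        have h11 : X = Real.log (48 * C') + Real.log K := by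
          rw [hX, Real.log_mul (by positivity) (by positivity)]
        have h12 : 0 ≤ Real.log (48 * C') := Real.log_nonneg (by linarith)
        have h13 := mul_le_mul_of_nonneg_left (h9.trans h8) h12
        rw [h11, hB, add_mul, one_mul]
        linarith
      have h8 : 9 * (ζ ^ 2 / α) * (B * Real.log (2 + K)) ≤ Real.log r := by
        have h9 : (ζ : ℝ) ^ 2 * Real.log (2 + K) ≤ 1 / (9 * B) * α * Real.log r := hcon
        have h10 : 9 * (ζ ^ 2 / α) * (B * Real.log (2 + K)) =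
            (9 * B / α) * ((ζ : ℝ) ^ 2 * Real.log (2 + K)) := by ring
        rw [h10]
        calc (9 * B / α) * ((ζ : ℝ) ^ 2 * Real.log (2 + K)) ≤
              (9 * B / α) * (1 / (9 * B) * α * Real.log r) := by gcongr
          _ = Real.log r := by field_simp
      have h9 : 9 * (ζ ^ 2 / α) * X ≤ 9 * (ζ ^ 2 / α) * (B * Real.log (2 + K)) := by gcongr
      linarith
    have h1 := core (n := n) hC1 hb hζ hL2 hrn hge hk' hbig hα hLα
    linarith

open Filter Topology in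
/-- For constant sparsity and a constant aspect ratio, every large dimension fails. -/
theorem constant_sparsity (C₁ C₂ α₀ : ℝ) (hα₀ : 0 < α₀) : ∃ r₀ : ℕ, ∀ r n ζ b : ℕ,
    r₀ ≤ r → r ≤ n → 1 ≤ ζ → 1 ≤ b → (ζ : ℝ) ≤ C₁ → ((b * ζ : ℕ) : ℝ) ≤ C₂ * r →
    ¬ IsOSI n b ζ r α₀ := by
  obtain ⟨c, hc, h⟩ := sparsity_lower C₂
  set α : ℝ := min α₀ 1 with hα
  have hα0 : 0 < α := lt_min hα₀ one_pos
  have hα1 : α ≤ 1 := min_le_right _ _
  have hlog : Tendsto (fun r : ℕ => c * α * Real.log r) atTop atTop := by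
    apply Tendsto.const_mul_atTop (by positivity)
    exact Real.tendsto_log_atTop.comp tendsto_natCast_atTop_atTop
  obtain ⟨r₀, hr₀⟩ := eventually_atTop.1
    (hlog.eventually_ge_atTop (C₁ ^ 2 * Real.log (2 + C₁ / α)))
  refine ⟨max r₀ 1, ?_⟩
  intro r n ζ b hr hrn hζ hb hζC hk hO
  have h1 := h r n ζ b α hα0 hα1 ((le_max_right _ _).trans hr) hrn hζ hb hk
    (hO.mono (min_le_left _ _))
  have h2 := hr₀ r ((le_max_left _ _).trans hr)
  have hζ1 : (1 : ℝ) ≤ ζ := by exact_mod_cast hζ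
  have h3 : (ζ : ℝ) ^ 2 * Real.log (2 + ζ / α) ≤ C₁ ^ 2 * Real.log (2 + C₁ / α) := by
    have h4 : 0 ≤ Real.log (2 + ζ / α) := Real.log_nonneg (by
      have : 0 ≤ (ζ : ℝ) / α := by positivity
      linarith)
    have h5 : Real.log (2 + ζ / α) ≤ Real.log (2 + C₁ / α) := by
      apply Real.log_le_log
      · have : 0 ≤ (ζ : ℝ) / α := by positivity
        linarith
      · gcongr
    calc (ζ : ℝ) ^ 2 * Real.log (2 + ζ / α) ≤ C₁ ^ 2 * Real.log (2 + ζ / α) := by gcongr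
      _ ≤ C₁ ^ 2 * Real.log (2 + C₁ / α) := by gcongr
  linarith

end Pool.Agent.R973.OSI
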